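import Pool.Agent.Q174.Bes.Count
import Pool.Agent.Q174.Bes.Series

/-!
# MP_f41da7_an, Q1: the number of nonreal zeros of derivatives of Bessel functions, first range

The claim of Q1 is false: for `n = 5`, `s = 2`, `ν = -1/2` (in the interval `(n-2s-2, n-2s-1) = (-1, 0)`)
the zeros of the fifth derivative of `J_ν` off both axes have total multiplicity at most `4`, while
the claim predicts `10` nonreal zeros, two of them purely imaginary.

Proof.  Up to a constant, `G(z) = a(w) cos z + b(w) z sin z`, `w = z^2`, with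
`a(w) = -(5/2) (w - 9/4) (w - 21/4)` and `b(w) = -w^2 + (15/2) w - 525/16`.
With `M = - cot z / z` the zeros satisfy `M = b/a = 2/5 - (14/5)/(w - 9/4) + (14/5)/(w - 21/4)`.  The
kernel `(M(z) - conj M(ζ)) / (w - conj w_0) = int_0^1 cos(zs) conj(cos(ζs)) ds / (z sin z conj(ζ sin ζ))`
is positive, and comparing it with the kernel of the right hand side (one positive and one negative
square) gives, for a zero `ζ` off the axes and every `z` off the axes, a lower bound for `|G(z)|` by a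
positive multiple of `|z^2 - ζ^2|`.  So `z^2` takes only one conjugate pair of nonreal values at the
zeros, and these zeros are simple.
-/

set_option autoImplicit false

namespace Pool.Agent.Results.MP_f41da7_an.FifthDerivative

open Complex Pool.Agent.Q174.Bes
open scoped Nat

/-- The entire function `G_{ν,n}` with `J_ν^{(n)}(z) = z^{ν-n} G_{ν,n}(z)`. -/
noncomputable def G (ν : ℝ) (n : ℕ) (z : ℂ) : ℂ :=
  ∑' m : ℕ, (-1) ^ m * (∏ j ∈ Finset.range n, ((ν : ℂ) + 2 * m - j)) /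
    ((m ! : ℂ) * (Real.Gamma (ν + m + 1) : ℂ)) * (((2 : ℝ) ^ (-(ν + 2 * m)) : ℝ) : ℂ) * z ^ (2 * m)

/-- `f` has exactly `k` zeros in `S` counted with multiplicity, where `S` is a set of zeros of `f`. -/
def ExactCount (f : ℂ → ℂ) (S : Set ℂ) (k : ℕ) : Prop :=
  S.Finite ∧ ∑ᶠ z ∈ S, analyticOrderNatAt f z = k

/-- The statement of Q1. -/
def Q1 : Prop :=
  ∀ n s : ℕ, ∀ ν : ℝ, (n : ℝ) - 2 * s - 2 < ν → ν < n - 2 * s - 1 →
    ExactCount (G ν n) {z | G ν n z = 0 ∧ z.im ≠ 0} (4 * s + 2) ∧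
      ExactCount (G ν n) {z | G ν n z = 0 ∧ z.im ≠ 0 ∧ z.re = 0} 2

/-- The closed form for `ν = -1/2`, `n = 5`, without the constant factor. -/
noncomputable def g (z : ℂ) : ℂ :=
  (-5 / 2 * (z ^ 2) ^ 2 + 75 / 4 * z ^ 2 - 945 / 32) * cos z +
    (-(z ^ 2) ^ 2 + 15 / 2 * z ^ 2 - 525 / 16) * (z * sin z)

theorem rpow_aux (m : ℕ) : (2 : ℝ) ^ (-((-1 / 2 : ℝ) + 2 * m)) = (2 : ℝ) ^ (1 / 2 : ℝ) / 4 ^ m := by
  have h : (-((-1 / 2 : ℝ) + 2 * m)) = 1 / 2 - ((2 * m : ℕ) : ℝ) := by push_cast; ring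
  rw [h, Real.rpow_sub (by norm_num), Real.rpow_natCast, pow_mul]
  norm_num

/-- The constant factor. -/
noncomputable def c : ℂ := (((2 : ℝ) ^ (1 / 2 : ℝ) : ℝ) : ℂ) * ((√Real.pi : ℝ) : ℂ)⁻¹

theorem c_ne : c ≠ 0 := by
  unfold c
  apply mul_ne_zero
  · rw [Ne, ofReal_eq_zero]
    positivity
  · rw [Ne, inv_eq_zero, ofReal_eq_zero]
    positivity

theorem G_eq (z : ℂ) : G (-1 / 2) 5 z = c * g z := by
  have h0 := hasSum_even z 0
  have h1 := hasSum_odd z 0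
  have h2 := hasSum_even z 1
  have h3 := hasSum_odd z 1
  have h4 := hasSum_even z 2
  have h5 := hasSum_odd z 2
  have h := ((((((h0.mul_left (-945 / 32)).add (h1.mul_left (525 / 16))).add
    (h2.mul_left (-75 / 4))).add (h3.mul_left (15 / 2))).add (h4.mul_left (-5 / 2))).add h5).mul_left c
  have hv : c *
      (-945 / 32 * ((-1) ^ 0 * z ^ (2 * 0) * cos z) +
        525 / 16 * ((-1) ^ (0 + 1) * z ^ (2 * 0 + 1) * sin z) +
        -75 / 4 * ((-1) ^ 1 * z ^ (2 * 1) * cos z) +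
        15 / 2 * ((-1) ^ (1 + 1) * z ^ (2 * 1 + 1) * sin z) +
        -5 / 2 * ((-1) ^ 2 * z ^ (2 * 2) * cos z) +
        (-1) ^ (2 + 1) * z ^ (2 * 2 + 1) * sin z) = c * g z := by
    unfold g
    ring
  rw [hv] at h
  refine (h.congr_fun ?_).tsum_eq
  intro m
  have hg := congrArg (fun x : ℝ => (x : ℂ)) (gamma_half m)
  simp only [ofReal_mul, ofReal_natCast, ofReal_pow, ofReal_ofNat] at hg
  have hpi : ((√Real.pi : ℝ) : ℂ) ≠ 0 := by
    rw [Ne, ofReal_eq_zero]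
    positivity
  have hf : ((2 * m)! : ℂ) ≠ 0 := by exact_mod_cast (2 * m).factorial_ne_zero
  have h4 : (4 : ℂ) ^ m ≠ 0 := pow_ne_zero _ (by norm_num)
  have hD : (m ! : ℂ) * (Real.Gamma (-1 / 2 + m + 1) : ℂ) =
      (2 * m)! * ((√Real.pi : ℝ) : ℂ) / 4 ^ m := by
    rw [eq_div_iff h4]
    exact hg
  have rp : (((2 : ℝ) ^ (-((-1 / 2 : ℝ) + 2 * m)) : ℝ) : ℂ) =
      (((2 : ℝ) ^ (1 / 2 : ℝ) : ℝ) : ℂ) / 4 ^ m := by
    rw [rpow_aux, ofReal_div, ofReal_pow, ofReal_ofNat]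
  rw [hD, rp]
  unfold c
  generalize (((2 : ℝ) ^ (1 / 2 : ℝ) : ℝ) : ℂ) = q
  simp only [desc_eval, Finset.prod_range_succ, Finset.prod_range_zero]
  push_cast
  field_simp
  ring

theorem ineq_G : Ineq (G (-1 / 2) 5) := by
  rw [funext G_eq]
  exact ineq5'.const_mul c_ne

theorem diff_G : Differentiable ℂ (G (-1 / 2) 5) := by
  rw [funext G_eq]
  unfold g
  fun_prop

/-- Q1 is false.  More precisely, for `ν = -1/2` (so `n = 5`, `s = 2`) the zeros of `J_ν^{(5)}` which are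
neither real nor purely imaginary have total multiplicity at most `4`, not `8`. -/
theorem result : ¬ Q1 ∧
    ∀ S : Finset ℂ, (∀ z ∈ S, G (-1 / 2) 5 z = 0 ∧ z.re ≠ 0 ∧ z.im ≠ 0) →
      ∑ z ∈ S, analyticOrderNatAt (G (-1 / 2) 5) z ≤ 4 := by
  have key : ∀ S : Finset ℂ, (∀ z ∈ S, G (-1 / 2) 5 z = 0 ∧ z.re ≠ 0 ∧ z.im ≠ 0) →
      ∑ z ∈ S, analyticOrderNatAt (G (-1 / 2) 5) z ≤ 4 := by
    intro S hS
    exact ineq_G.count diff_G S (fun z hz => ⟨(hS z hz).2.1, (hS z hz).2.2, (hS z hz).1⟩)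
  refine ⟨?_, key⟩
  intro h
  obtain ⟨⟨hfin, hsum⟩, hfin', hsum'⟩ := h 5 2 (-1 / 2) (by norm_num) (by norm_num)
  rw [finsum_mem_eq_finite_toFinset_sum _ hfin] at hsum
  rw [finsum_mem_eq_finite_toFinset_sum _ hfin'] at hsum'
  have h1 := key (hfin.toFinset.filter (fun z => z.re ≠ 0)) (by
    intro z hz
    rw [Finset.mem_filter, Set.Finite.mem_toFinset] at hz
    exact ⟨hz.1.1, hz.2, hz.1.2⟩)
  have h2 : hfin.toFinset.filter (fun z => ¬ z.re ≠ 0) = hfin'.toFinset := by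
    ext z
    simp only [Finset.mem_filter, Set.Finite.mem_toFinset, Set.mem_ofPred_eq, not_not]
    tauto
  have h3 := Finset.sum_filter_add_sum_filter_not hfin.toFinset (fun z => z.re ≠ 0)
    (fun z => analyticOrderNatAt (G (-1 / 2) 5) z)
  rw [h2, hsum', hsum] at h3
  omega

end Pool.Agent.Results.MP_f41da7_an.FifthDerivative
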